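import Pool.Agent.H50.NC.Targets

/-!
# MP_816b90_co, graphs without clique of size four, row X3: the case (III) is impossible
-/

set_option autoImplicit false

namespace Pool.Agent.H38.NCK

open Pool.Agent.H48.ER Pool.Agent.H50.NC

theorem sd_flip {V : Type} {G : SimpleGraph V} {a b : Fin 3 → V} {n : Fin 3 → ℕ}
    {P : Fin 3 → Set V} {i : Fin 3} {S : Set V} (h : Sd G a b n P i S) : Sd G b a n P i S where
  pr := ⟨h.pr.1.flip, h.pr.2⟩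
  cn := h.cn
  int := fun v hv h1 h2 => h.int v hv h2 h1
  ne := h.ne
  mx := h.mx

theorem two_ne : ∀ i : Fin 3, ∃ j k : Fin 3, j ≠ i ∧ k ≠ i ∧ j ≠ k := by decide

theorem xr_a {V : Type} {G : SimpleGraph V} {a b : Fin 3 → V} {n : Fin 3 → ℕ}
    {P : Fin 3 → Set V} {i : Fin 3} {S : Set V} (h : Sd G a b n P i S) {j : Fin 3} (hj : j ≠ i) :
    a j ∈ Xr P i := ⟨j, hj, h.pr.1.a_mem j⟩

/-- `y` is a major, `z` of the first type -/
theorem x3_core (hTYP : T_TYP) (hSVX : T_SVX) (hF1 : T_F1) (hF2 : T_F2)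
    {V : Type} {G : SimpleGraph V} {a b : Fin 3 → V} {n : Fin 3 → ℕ}
    {P : Fin 3 → Set V} {i : Fin 3} {S : Set V} (h1 : NOH G) (h2 : NOP G) (h3 : NK4 G)
    (hS : Sd G a b n P i S) {a' b' : Fin 3 → V} {n' : Fin 3 → ℕ} {P' : Fin 3 → Set V}
    (hK : EPr G a' b' n' P') {j k : Fin 3} (h0j : 0 ≠ j) (h0k : 0 ≠ k) (hjk : j ≠ k) {r : ℕ} {x : V}
    {R : Set V} (hR : IP G r (a' 0) x R) (hRP : R ⊆ P' 0) (hxS : x ∉ S)
    (hRS : ∀ v ∈ R, v = x ∨ v ∈ S) (hr : Odd r) (hxb : x ≠ b' 0) (hxP : x ∈ P' 0)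
    (hc : a' 0 ∈ S) (hNx : Nb G S x) (hNy : Nb G S (a' j)) (hNz : Nb G S (a' k))
    (hxy : ¬ G.Adj x (a' j)) (hxz : ¬ G.Adj x (a' k)) (hny : x ≠ a' j)
    (hyM : Mj G a i (a' j) ∧ Mj G b i (a' j)) (hzA : Al G a P i (a' k)) : False := by
  obtain ⟨p, q, hp, hq, hpq⟩ := two_ne i
  have hyz : G.Adj (a' j) (a' k) := hK.1.a_adj hjk
  have hza : ∀ l, l ≠ i → G.Adj (a' k) (a l) := fun l hl => (hzA _ (xr_a hS hl)).2 ⟨l, hl, rfl⟩
  -- `y` does not see both corners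
  have hno : ¬ ∀ l, l ≠ i → G.Adj (a' j) (a l) := by
    intro h
    exact h3 _ _ _ _ hyz (h p hp) (h q hq) (hza p hp) (hza q hq) (hS.pr.1.a_adj hpq)
  have hyx : ¬ G.Adj (a' j) x := fun h => hxy h.symm
  rcases hTYP V G a b n P i S x h1 h2 hS hNx with hx | hx | hx
  · exact hno (hF1 V G a b n P i S x (a' j) h1 h2 hS hNx hx hNy hyx hyM.1 hyM.2)
  · -- second type
    have hyb := hF1 V G b a n P i S x (a' j) h1 h2 (sd_flip hS) hNx hx hNy hyx hyM.2 hyM.1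
    have hfX : b p ∈ Xr P i := xr_a (sd_flip hS) hp
    have hfx : G.Adj (b p) x := ((hx _ hfX).2 ⟨p, hp, rfl⟩).symm
    have hfy : G.Adj (b p) (a' j) := (hyb p hp).symm
    have hfz : ¬ G.Adj (b p) (a' k) := by
      intro h
      obtain ⟨l, hl, e⟩ := (hzA _ hfX).1 h.symm
      exact hS.pr.1.a_ne_b l p e.symm
    have hxa : x ≠ a' 0 := fun e => hxS (e ▸ hc)
    have hfv : b p ∉ ver P' := by
      rintro ⟨m, hm⟩
      by_cases hm0 : m = 0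
      · subst hm0
        rcases (hK.1.adj 0 j h0j _ hm _ (hK.1.a_mem j)).1 hfy with ⟨e, -⟩ | ⟨-, e⟩
        · exact (hS.ne _ hc _ hfX).1 e.symm
        · exact hK.1.a_ne_b j j e
      · rcases (hK.1.adj m 0 hm0 _ hm _ hxP).1 hfx with ⟨-, e⟩ | ⟨-, e⟩
        · exact hxa e
        · exact hxb e
    refine hSVX V G a' b' n' P' 0 j k r x (b p) R h1 h2 hK h0j h0k hjk hfv hR hRP hr ?_ hfy hfz
    intro v hv
    constructor
    · intro hadj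
      rcases hRS v hv with e | e
      · exact e
      · exact absurd hadj.symm (hS.ne _ e _ hfX).2
    · rintro rfl
      exact hfx
  · -- major
    have hxa := hF1 V G a b n P i S (a' k) x h1 h2 hS hNz hzA hNx hxz hx.1 hx.2
    have hxy2 := hF2 V G a b n P i S x (a' j) h1 h3 hS hNx hNy hny hxy hx.1 hx.2 hyM.1 hyM.2
    exact hno fun l hl => (hxy2 l).1 (hxa l hl)

/-- `y` is a major -/
theorem x3_core2 (hTYP : T_TYP) (hSVX : T_SVX) (hF1 : T_F1) (hF2 : T_F2) (hF3 : T_F3)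
    {V : Type} {G : SimpleGraph V} {a b : Fin 3 → V} {n : Fin 3 → ℕ}
    {P : Fin 3 → Set V} {i : Fin 3} {S : Set V} (h1 : NOH G) (h2 : NOP G) (h3 : NK4 G)
    (hS : Sd G a b n P i S) {a' b' : Fin 3 → V} {n' : Fin 3 → ℕ} {P' : Fin 3 → Set V}
    (hK : EPr G a' b' n' P') {j k : Fin 3} (h0j : 0 ≠ j) (h0k : 0 ≠ k) (hjk : j ≠ k) {r : ℕ} {x : V}
    {R : Set V} (hR : IP G r (a' 0) x R) (hRP : R ⊆ P' 0) (hxS : x ∉ S)
    (hRS : ∀ v ∈ R, v = x ∨ v ∈ S) (hr : Odd r) (hxb : x ≠ b' 0) (hxP : x ∈ P' 0)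
    (hc : a' 0 ∈ S) (hNx : Nb G S x) (hNy : Nb G S (a' j)) (hNz : Nb G S (a' k))
    (hxy : ¬ G.Adj x (a' j)) (hxz : ¬ G.Adj x (a' k)) (hny : x ≠ a' j) (hnz : x ≠ a' k)
    (hyM : Mj G a i (a' j) ∧ Mj G b i (a' j)) : False := by
  obtain ⟨p, q, hp, hq, hpq⟩ := two_ne i
  have hyz : G.Adj (a' j) (a' k) := hK.1.a_adj hjk
  rcases hTYP V G a b n P i S (a' k) h1 h2 hS hNz with hz | hz | hz
  · exact x3_core hTYP hSVX hF1 hF2 h1 h2 h3 hS hK h0j h0k hjk hR hRP hxS hRS hr hxb hxP hc hNx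
      hNy hNz hxy hxz hny hyM hz
  · exact x3_core hTYP hSVX hF1 hF2 h1 h2 h3 (sd_flip hS) hK h0j h0k hjk hR hRP hxS hRS hr hxb
      hxP hc hNx hNy hNz hxy hxz hny ⟨hyM.2, hyM.1⟩ hz
  · have hyx : ¬ G.Adj (a' j) x := fun h => hxy h.symm
    have hzx : ¬ G.Adj (a' k) x := fun h => hxz h.symm
    rcases hTYP V G a b n P i S x h1 h2 hS hNx with hx | hx | hx
    · have e1 := hF1 V G a b n P i S x (a' j) h1 h2 hS hNx hx hNy hyx hyM.1 hyM.2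
      have e2 := hF1 V G a b n P i S x (a' k) h1 h2 hS hNx hx hNz hzx hz.1 hz.2
      exact h3 _ _ _ _ hyz (e1 p hp) (e1 q hq) (e2 p hp) (e2 q hq) (hS.pr.1.a_adj hpq)
    · have e1 := hF1 V G b a n P i S x (a' j) h1 h2 (sd_flip hS) hNx hx hNy hyx hyM.2 hyM.1
      have e2 := hF1 V G b a n P i S x (a' k) h1 h2 (sd_flip hS) hNx hx hNz hzx hz.2 hz.1
      exact h3 _ _ _ _ hyz (e1 p hp) (e1 q hq) (e2 p hp) (e2 q hq) (hS.pr.1.b_adj hpq)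
    · have e1 := hF2 V G a b n P i S x (a' j) h1 h3 hS hNx hNy hny hxy hx.1 hx.2 hyM.1 hyM.2
      have e2 := hF2 V G a b n P i S x (a' k) h1 h3 hS hNx hNz hnz hxz hx.1 hx.2 hz.1 hz.2
      exact hF3 V G a b n P i S (a' j) (a' k) h3 hS hyz hyM.1 hz.1
        fun l => (e1 l).symm.trans (e2 l)

theorem pf_X3 (hTYP : T_TYP) (hSVX : T_SVX) (hF1 : T_F1) (hF2 : T_F2) (hF3 : T_F3)
    (hFA : T_FA) : T_X3 := by
  intro V G a b n P i S h1 h2 h3 hS hC3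
  obtain ⟨a', b', n', P', r, x, hK, hc, hy, hz, ⟨R, hR, hRP, hxS, hRS⟩, hr, hxb, hxP⟩ := hC3
  have h01 : (0 : Fin 3) ≠ 1 := by decide
  have h02 : (0 : Fin 3) ≠ 2 := by decide
  have h12 : (1 : Fin 3) ≠ 2 := by decide
  have hxa : x ≠ a' 0 := fun e => hxS (e ▸ hc)
  have hNy : Nb G S (a' 1) := ⟨hy, a' 0, hc, hK.1.a_adj h01.symm⟩
  have hNz : Nb G S (a' 2) := ⟨hz, a' 0, hc, hK.1.a_adj h02.symm⟩
  have hNx : Nb G S x := by
    refine ⟨hxS, ?_⟩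
    obtain ⟨m, rfl⟩ : ∃ m, r = m + 1 := by
      obtain ⟨t, ht⟩ := hr
      exact ⟨2 * t, ht⟩
    obtain ⟨x', hxx, hx'R, -, -⟩ := hR.rev.tail
    rcases hRS x' hx'R with e | e
    · exact absurd hxx (by rw [e]; exact G.loopless.irrefl x)
    · exact ⟨x', e, hxx⟩
  have hnad : ∀ j : Fin 3, 0 ≠ j → ¬ G.Adj x (a' j) := by
    intro j hj h
    rcases (hK.1.adj 0 j hj _ hxP _ (hK.1.a_mem j)).1 h with ⟨e, -⟩ | ⟨e, -⟩
    · exact hxa e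
    · exact hxb e
  have hne : ∀ j : Fin 3, 0 ≠ j → x ≠ a' j := fun j hj =>
    hK.1.ne_of_mem hj hxP (hK.1.a_mem j)
  rcases hFA V G a b n P i S (a' 1) (a' 2) h1 h2 h3 hS hNy hNz (hK.1.a_adj h12) with hM | hM
  · exact x3_core2 hTYP hSVX hF1 hF2 hF3 h1 h2 h3 hS hK h01 h02 h12 hR hRP hxS hRS hr hxb hxP hc
      hNx hNy hNz (hnad 1 h01) (hnad 2 h02) (hne 1 h01) (hne 2 h02) hM
  · exact x3_core2 hTYP hSVX hF1 hF2 hF3 h1 h2 h3 hS hK h02 h01 h12.symm hR hRP hxS hRS hr hxb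
      hxP hc hNx hNz hNy (hnad 2 h02) (hnad 1 h01) (hne 2 h02) (hne 1 h01) hM

end Pool.Agent.H38.NCK
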